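import Mathlib
import Pool.Agent.Y760.LY.D

/-!
# Multiple zeta values at Lyndon words satisfy no polynomial relation of exponential height

Indices of depth at most `r` with all arguments at most `κ n` and largest argument at least `n`;
the arguments are otherwise arbitrary. Lyndon words are taken with respect to the reversed order of
the integers, so that they begin with their largest argument. For every `k`, `d`, `C` the values at
`k` distinct Lyndon words of this kind satisfy no nontrivial polynomial relation of degree at most
`d` with coefficients at most `C ^ n` (coordinates with respect to real algebraic numbers `β_j`),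
not even up to an error `B ^ (-n)`.

The Lyndon words with first argument at least `n` generate freely the algebra of all words with
first argument at least `n` with the stuffle product (Radford, Hoffman); the proof contains the
freeness (leading words of products of Lyndon words, `Pool.Agent.Y760.LY`).
-/

set_option autoImplicit false

namespace Pool.Agent.Results.MP_f3dc73_nt.LyndonIndependence

/-- `trunc [s_1, ..., s_r] m` is the sum of `∏ k_i ^ (-s_i)` over `m > k_1 > ... > k_r ≥ 1` -/
noncomputable def trunc : List ℕ → ℕ → ℝ
  | [], _ => 1
  | s :: l, m => ∑ j ∈ Finset.Ico 1 m, trunc l j / (j : ℝ) ^ s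

/-- the multiple zeta value whose argument `s_1` belongs to the largest variable, `ζ(s_r, ..., s_1)`
in the notation of the problem -/
noncomputable def mzv : List ℕ → ℝ
  | [] => 1
  | s :: l => ∑' k : ℕ, trunc l (k + 1) / ((k + 1 : ℕ) : ℝ) ^ s

/-- Lyndon words for the reversed order of the integers: nonempty words which are larger, in the
lexicographic order, than all their nontrivial rotations -/
def IsLyndon (w : List ℕ) : Prop :=
  w ≠ [] ∧ ∀ p q : List ℕ, w = p ++ q → p ≠ [] → q ≠ [] → q ++ p < p ++ q

/-- Let `β_1, …, β_l` be real algebraic numbers which are linearly independent over the rational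
numbers, let `k`, `r`, `d` be natural numbers and `κ`, `C` real numbers. There are `B > 1` and `n0`
such that for all `n ≥ n0`, all distinct Lyndon words `w_1, …, w_k` of length at most `r` whose
letters are positive and at most `κ n` and whose first letter is at least `n`, and all integer
polynomials `P_1, …, P_l` in `k` variables, not all zero, of total degree at most `d` and with all
coefficients at most `C ^ n` in absolute value, `|∑ β_j P_j(ζ(w_1), …, ζ(w_k))| > B ^ (-n)`. -/
theorem result {l k : ℕ} (β : Fin l → ℝ) (hβ : ∀ j, IsAlgebraic ℚ (β j))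
    (hli : LinearIndependent ℚ β) (r d : ℕ) (κ C : ℝ) :
    ∃ B : ℝ, 1 < B ∧ ∃ n0 : ℕ, ∀ n : ℕ, n0 ≤ n → ∀ w : Fin k → List ℕ, Function.Injective w →
      (∀ i, IsLyndon (w i) ∧ (w i).length ≤ r ∧ (∀ m ∈ w i, 1 ≤ m ∧ (m : ℝ) ≤ κ * n) ∧
        ∀ m ∈ (w i).head?, n ≤ m) →
      ∀ P : Fin l → MvPolynomial (Fin k) ℤ, P ≠ 0 → (∀ j, (P j).totalDegree ≤ d) →
      (∀ j e, |(((P j).coeff e : ℤ) : ℝ)| ≤ C ^ n) →
      (B ^ n)⁻¹ < |∑ j, β j * MvPolynomial.aeval (fun i => mzv (w i)) (P j)| := by
  have h1 : ∀ l m, trunc l m = Pool.Agent.Y760.ZG.hr l m := by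
    intro l
    induction l with
    | nil => intro m; rw [trunc, Pool.Agent.Y760.ZG.hr]
    | cons s l ih =>
      intro m
      rw [trunc, Pool.Agent.Y760.ZG.hr]
      exact Finset.sum_congr rfl fun j _ => by rw [ih]
  have h2 : ∀ l, mzv l = Pool.Agent.Y760.ZG.mz l := by
    intro l
    cases l with
    | nil => rw [mzv, Pool.Agent.Y760.ZG.mz]
    | cons s l =>
      rw [mzv, Pool.Agent.Y760.ZG.mz]
      exact tsum_congr fun k => by rw [h1]
  simp only [h2]
  exact Pool.Agent.Y760.LY.lynMain β hβ hli r d κ C

end Pool.Agent.Results.MP_f3dc73_nt.LyndonIndependence
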