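import Mathlib
import Pool.Agent.Y760.ST.Fin

/-!
# Multiple zeta values at the arguments `a_i n + b_i`: linear forms, sharp measures

A word is a list of letters `(a, b)` with `a ≥ 1`, `b ≥ 0`; its value at `n` is the multiple zeta
value with the arguments `a n + b`. Let `x_0 = 1, x_1, …, x_r` be rational combinations of products
of words whose stuffle expansions are linearly independent, that is, which are linearly independent
elements of the stuffle algebra. Linear forms in the values of `x_0, …, x_r` at `n` with integer
coefficients of absolute value at most `H`, `D ^ n ≤ H ≤ C ^ n`, are larger than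
`H ^ (-r) B ^ (-n)`, for every `B > 1` and all large `n`; the exponent `r` is best possible.

The proof is in the helper files `Pool.Agent.Y760.ST` (with parts by helper93, helper109,
helper919); it uses the subspace theorem over the field of germs of rational sequences
(`Pool.Agent.TH796.AL`) and the arithmetic functions of the words (`Pool.Agent.TH507.WD`).
-/

set_option autoImplicit false

namespace Pool.Agent.Results.MP_f3dc73_nt.SharpMeasures

/-- `trunc [s_1, ..., s_r] m` is the sum of `∏ k_i ^ (-s_i)` over `m > k_1 > ... > k_r ≥ 1` -/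
noncomputable def trunc : List ℕ → ℕ → ℝ
  | [], _ => 1
  | s :: l, m => ∑ j ∈ Finset.Ico 1 m, trunc l j / (j : ℝ) ^ s

/-- the multiple zeta value whose argument `s_1` belongs to the largest variable, `ζ(s_r, ..., s_1)`
in the notation of the problem -/
noncomputable def mzv : List ℕ → ℝ
  | [] => 1
  | s :: l => ∑' k : ℕ, trunc l (k + 1) / ((k + 1 : ℕ) : ℝ) ^ s

/-- words in the letters `(a, b)`, `a ≥ 1`, `b ≥ 0` -/
abbrev Word : Type := List (ℕ+ × ℕ)

/-- the value of a word at `n`: the multiple zeta value with the arguments `a n + b` -/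
noncomputable def value (n : ℕ) (w : Word) : ℝ := mzv (w.map fun x => (x.1 : ℕ) * n + x.2)

/-- the stuffle product of two words, as a list of words; the sum of two letters `(a, b)`,
`(a', b')` is `(a + a', b + b')` -/
def stuffle : Word → Word → List Word
  | [], v => [v]
  | x :: u, [] => [x :: u]
  | x :: u, y :: v => (stuffle u (y :: v)).map (x :: ·) ++ (stuffle (x :: u) v).map (y :: ·) ++
      (stuffle u v).map ((x + y) :: ·)
termination_by u v => u.length + v.length

/-- the stuffle product of several words -/
def stuffles : List Word → List Word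
  | [] => [[]]
  | u :: M => (stuffles M).flatMap (stuffle u)

/-- the stuffle expansion of a rational combination of products (lists) of words -/
noncomputable def expansion : (List Word →₀ ℚ) →ₗ[ℚ] (Word →₀ ℚ) :=
  Finsupp.linearCombination ℚ fun M => ((stuffles M).map fun w => Finsupp.single w 1).sum

/-- the value at `n` of a rational combination of products of words -/
noncomputable def eval (n : ℕ) : (List Word →₀ ℚ) →ₗ[ℚ] ℝ :=
  Finsupp.linearCombination ℚ fun M => (M.map (value n)).prod

/-- Let `β_1, …, β_l` be real algebraic numbers, linearly independent over `ℚ`, and let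
`x_0 = 1, x_1, …, x_r` be rational combinations of products of words whose stuffle expansions are
linearly independent. There is `D > 1` such that for all `C` and all `B > 1` there is `n0` such
that for all `n ≥ n0`, all `H` with `D ^ n ≤ H ≤ C ^ n` and all integers `q_(j,i)`, not all zero,
of absolute value at most `H`, `|∑ q_(j,i) β_j x_i(n)| > 1 / (H ^ (l (r + 1) - 1) B ^ n)`. -/
theorem result {l r : ℕ} (β : Fin l → ℝ) (hβ : ∀ j, IsAlgebraic ℚ (β j))
    (hβi : LinearIndependent ℚ β) (x : Fin (r + 1) → List Word →₀ ℚ)
    (h0 : x 0 = Finsupp.single [] 1) (hx : LinearIndependent ℚ fun i => expansion (x i)) :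
    ∃ D : ℝ, 1 < D ∧ ∀ C B : ℝ, 1 < B → ∃ n0 : ℕ, ∀ n : ℕ, n0 ≤ n → ∀ H : ℝ, D ^ n ≤ H →
      H ≤ C ^ n → ∀ q : Fin l → Fin (r + 1) → ℤ, q ≠ 0 → (∀ j i, |(q j i : ℝ)| ≤ H) →
        1 / (H ^ (l * (r + 1) - 1) * B ^ n) < |∑ j, ∑ i, (q j i : ℝ) * (β j * eval n (x i))| := by
  have h1 : ∀ l m, trunc l m = Pool.Agent.TH507.WD.hr l m := by
    intro l
    induction l with
    | nil => intro m; rw [trunc, Pool.Agent.TH507.WD.hr]
    | cons s l ih =>
      intro m
      rw [trunc, Pool.Agent.TH507.WD.hr]
      exact Finset.sum_congr rfl fun j _ => by rw [ih]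
  have h2 : ∀ l, mzv l = Pool.Agent.TH507.WD.mz l := by
    intro l
    cases l with
    | nil => rw [mzv, Pool.Agent.TH507.WD.mz]
    | cons s l =>
      rw [mzv, Pool.Agent.TH507.WD.mz]
      exact tsum_congr fun k => by rw [h1]
  have h3 : ∀ u v, stuffle u v = Pool.Agent.TH507.WD.st u v := by
    intro u v
    induction u, v using Pool.Agent.TH507.WD.st.induct with
    | case1 v => rw [stuffle, Pool.Agent.TH507.WD.st]
    | case2 x u => rw [stuffle, Pool.Agent.TH507.WD.st]
    | case3 x u y v ih1 ih2 ih3 => rw [stuffle, Pool.Agent.TH507.WD.st, ih1, ih2, ih3]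
  have h4 : ∀ M, stuffles M = Pool.Agent.TH507.WD.stl M := by
    intro M
    induction M with
    | nil => rw [stuffles, Pool.Agent.TH507.WD.stl]
    | cons u M ih =>
      rw [stuffles, Pool.Agent.TH507.WD.stl, ih]
      congr 1
      funext v
      exact h3 u v
  have h5 : expansion = Pool.Agent.Y760.ST.expand := by
    unfold expansion Pool.Agent.Y760.ST.expand
    simp only [h4]
  have h6 : ∀ n, eval n = Pool.Agent.Y760.ST.valP n := by
    intro n
    unfold eval Pool.Agent.Y760.ST.valP
    have h7 : (fun M : List Word => (M.map (value n)).prod) = fun M =>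
        (M.map fun u => Pool.Agent.TH507.WD.mz (Pool.Agent.TH507.WD.ar n u)).prod := by
      funext M
      have h8 : value n = fun u => Pool.Agent.TH507.WD.mz (Pool.Agent.TH507.WD.ar n u) := by
        funext u
        rw [value, h2, Pool.Agent.TH507.WD.ar]
      rw [h8]
    rw [h7]
  rw [h5] at hx
  obtain ⟨D, hD, hmain⟩ := Pool.Agent.Y760.ST.wdMain β hβ hβi
    (fun i => Pool.Agent.Y760.ST.expand (x i)) hx (by
      rw [h0, Pool.Agent.Y760.ST.expand, Finsupp.linearCombination_single, one_smul,
        Pool.Agent.TH507.WD.stl]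
      simp)
  refine ⟨D, hD, fun C B hB => ?_⟩
  obtain ⟨n0, hn0⟩ := hmain C B hB
  refine ⟨n0 + 2, fun n hn H hH1 hH2 q hq hqH => ?_⟩
  have h9 := hn0 n (by omega) H hH1 hH2 q hq hqH
  have h10 : ∀ i, eval n (x i) = Pool.Agent.Y760.ST.valW n (Pool.Agent.Y760.ST.expand (x i)) := by
    intro i
    rw [h6, Pool.Agent.Y760.ST.valP_eq (by omega)]
  simp only [h10]
  exact h9

end Pool.Agent.Results.MP_f3dc73_nt.SharpMeasures
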